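import Mathlib.Analysis.CStarAlgebra.ContinuousLinearMap
import Mathlib.Analysis.InnerProductSpace.Adjoint
import Mathlib.Analysis.InnerProductSpace.ProdL2
import Mathlib.Analysis.CStarAlgebra.Spectrum

/-!
# Homomorphisms of C*-algebras close to *-homomorphisms: definitions
-/

universe u v

namespace Pool.Agent.TH116.KS

/-- A complex Hilbert space. -/
structure Hilb where
  /-- the space -/
  carrier : Type v
  [normed : NormedAddCommGroup carrier]
  [inner : InnerProductSpace ℂ carrier]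
  [complete : CompleteSpace carrier]

attribute [instance] Hilb.normed Hilb.inner Hilb.complete

/-- The algebra `B(H)` of bounded operators on the Hilbert space `H`. -/
abbrev Hilb.Op (H : Hilb.{v}) : Type v := H.carrier →L[ℂ] H.carrier

/-- `B(H)` is a C*-algebra. -/
noncomputable instance (H : Hilb.{v}) : CStarAlgebra H.Op := inferInstance

section

variable {A : Type u} {B : Type v} [CStarAlgebra A] [CStarAlgebra B]

/-- The unital homomorphism `a` to a C*-algebra `B` is similar to a *-homomorphism: for some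
invertible `S` in `B`, the map `x ↦ S a(x) S⁻¹` preserves adjoints. -/
def IsSimilarToStar (a : A →ₐ[ℂ] B) : Prop :=
  ∃ S : Bˣ, ∀ x : A, S.val * a (star x) * S.inv = star (S.val * a x * S.inv)

/-- `‖a(x)‖ ≤ c ‖x‖` for all `x`. -/
def IsBoundedBy (a : A →ₐ[ℂ] B) (c : ℝ) : Prop := ∀ x, ‖a x‖ ≤ c * ‖x‖

/-- `‖a(x) - π(x)‖ ≤ ε ‖x‖` for all `x`. -/
def IsCloseTo (a : A →ₐ[ℂ] B) (π : A →⋆ₐ[ℂ] B) (ε : ℝ) : Prop := ∀ x, ‖a x - π x‖ ≤ ε * ‖x‖

/-- `δ` is a bounded derivation relative to the *-homomorphism `π`. -/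
structure IsDerivation (π : A →⋆ₐ[ℂ] B) (δ : A →ₗ[ℂ] B) : Prop where
  leibniz : ∀ x y, δ (x * y) = π x * δ y + δ x * π y
  bounded : ∃ c : ℝ, ∀ x, ‖δ x‖ ≤ c * ‖x‖

/-- `δ` is the inner derivation given by an element `T`. -/
def IsInner (π : A →⋆ₐ[ℂ] B) (δ : A →ₗ[ℂ] B) : Prop := ∃ T : B, ∀ x, δ x = π x * T - T * π x

end

variable (A : Type u) [CStarAlgebra A]

/-- Kadison's similarity property of `A`: every bounded unital homomorphism from `A` to the bounded
operators of a Hilbert space is similar to a *-homomorphism. -/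
def Similarity : Prop :=
  ∀ (H : Hilb.{v}) (a : A →ₐ[ℂ] H.Op) (c : ℝ), IsBoundedBy a c → IsSimilarToStar a

/-- The similarity property for the unital homomorphisms which are `ε`-close to a
*-homomorphism. -/
def CloseSimilarity (ε : ℝ) : Prop :=
  ∀ (H : Hilb.{v}) (a : A →ₐ[ℂ] H.Op) (π : A →⋆ₐ[ℂ] H.Op), IsCloseTo a π ε → IsSimilarToStar a

/-- All bounded derivations from `A` to the bounded operators of a Hilbert space, relative to a
*-homomorphism `π`, are inner. -/
def DerivationsInner : Prop :=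
  ∀ (H : Hilb.{v}) (π : A →⋆ₐ[ℂ] H.Op) (δ : A →ₗ[ℂ] H.Op), IsDerivation π δ → IsInner π δ

end Pool.Agent.TH116.KS
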