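import Pool.Agent.TH116.KS.Defs

/-!
# Derivations and homomorphisms close to *-homomorphisms
-/

universe u v

namespace Pool.Agent.TH116.KS

/-- The Hilbert sum of two copies of `H`. -/
abbrev K2 (H : Type v) : Type v := WithLp 2 (H × H)

section

variable {H : Type v} [NormedAddCommGroup H] [InnerProductSpace ℂ H]

/-- The first projection. -/
noncomputable def p1 (H : Type v) [NormedAddCommGroup H] [InnerProductSpace ℂ H] :
    (K2 H) →L[ℂ] H :=
  (ContinuousLinearMap.fst ℂ H H) ∘L (WithLp.prodContinuousLinearEquiv 2 ℂ H H : (K2 H) →L[ℂ] H × H)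

/-- The second projection. -/
noncomputable def p2 (H : Type v) [NormedAddCommGroup H] [InnerProductSpace ℂ H] :
    (K2 H) →L[ℂ] H :=
  (ContinuousLinearMap.snd ℂ H H) ∘L (WithLp.prodContinuousLinearEquiv 2 ℂ H H : (K2 H) →L[ℂ] H × H)

/-- The first inclusion. -/
noncomputable def i1 (H : Type v) [NormedAddCommGroup H] [InnerProductSpace ℂ H] :
    H →L[ℂ] (K2 H) :=
  ((WithLp.prodContinuousLinearEquiv 2 ℂ H H).symm : H × H →L[ℂ] (K2 H)) ∘L
    (ContinuousLinearMap.inl ℂ H H)

/-- The second inclusion. -/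
noncomputable def i2 (H : Type v) [NormedAddCommGroup H] [InnerProductSpace ℂ H] :
    H →L[ℂ] (K2 H) :=
  ((WithLp.prodContinuousLinearEquiv 2 ℂ H H).symm : H × H →L[ℂ] (K2 H)) ∘L
    (ContinuousLinearMap.inr ℂ H H)

@[simp] lemma p1_i1 (x : H) : p1 H (i1 H x) = x := by simp [p1, i1]
@[simp] lemma p2_i1 (x : H) : p2 H (i1 H x) = 0 := by simp [p2, i1]
@[simp] lemma p1_i2 (x : H) : p1 H (i2 H x) = 0 := by simp [p1, i2]
@[simp] lemma p2_i2 (x : H) : p2 H (i2 H x) = x := by simp [p2, i2]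

lemma norm_sq (z : K2 H) : ‖z‖ ^ 2 = ‖p1 H z‖ ^ 2 + ‖p2 H z‖ ^ 2 :=
  WithLp.prod_norm_sq_eq_of_L2 z

lemma ext_K2 {z w : K2 H} (h1 : p1 H z = p1 H w) (h2 : p2 H z = p2 H w) : z = w := by
  apply (WithLp.prodContinuousLinearEquiv 2 ℂ H H).injective
  exact Prod.ext h1 h2

lemma decomp (z : K2 H) : i1 H (p1 H z) + i2 H (p2 H z) = z := by
  apply ext_K2 <;> simp

lemma inner_K2 (z w : K2 H) :
    inner ℂ z w = inner ℂ (p1 H z) (p1 H w) + inner ℂ (p2 H z) (p2 H w) :=
  WithLp.prod_inner_apply z w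

lemma norm_i1 (x : H) : ‖i1 H x‖ = ‖x‖ := by
  have h := norm_sq (i1 H x)
  rw [p1_i1, p2_i1, norm_zero] at h
  have h2 : ‖i1 H x‖ ^ 2 = ‖x‖ ^ 2 := by rw [h]; ring
  exact (sq_eq_sq₀ (norm_nonneg _) (norm_nonneg _)).1 h2

lemma norm_p2_le (z : K2 H) : ‖p2 H z‖ ≤ ‖z‖ := by
  have h := norm_sq z
  nlinarith [norm_nonneg (p2 H z), norm_nonneg z, sq_nonneg ‖p1 H z‖]

/-- The block matrix `(a b; 0 a)`. -/
noncomputable def block (a b : H →L[ℂ] H) : (K2 H) →L[ℂ] (K2 H) :=
  i1 H ∘L a ∘L p1 H + i1 H ∘L b ∘L p2 H + i2 H ∘L a ∘L p2 H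

@[simp] lemma p1_block (a b : H →L[ℂ] H) (z : K2 H) :
    p1 H (block a b z) = a (p1 H z) + b (p2 H z) := by
  simp [block]

@[simp] lemma p2_block (a b : H →L[ℂ] H) (z : K2 H) : p2 H (block a b z) = a (p2 H z) := by
  simp [block]

lemma block_mul (a b a' b' : H →L[ℂ] H) :
    block a b * block a' b' = block (a * a') (a * b' + b * a') := by
  ext z
  change block a b (block a' b' z) = _
  apply ext_K2
  · simp [add_assoc]
  · simp

lemma block_one : block (1 : H →L[ℂ] H) 0 = 1 := by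
  ext z
  change block 1 0 z = z
  apply ext_K2 <;> simp

lemma block_add (a b a' b' : H →L[ℂ] H) :
    block (a + a') (b + b') = block a b + block a' b' := by
  ext z
  apply ext_K2
  · simp [add_add_add_comm]
  · simp

lemma block_smul (c : ℂ) (a b : H →L[ℂ] H) : block (c • a) (c • b) = c • block a b := by
  ext z
  apply ext_K2 <;> simp

lemma norm_block_sub_le (a b : H →L[ℂ] H) : ‖block a b - block a 0‖ ≤ ‖b‖ := by
  refine ContinuousLinearMap.opNorm_le_bound _ (norm_nonneg b) fun z => ?_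
  have e : (block a b - block a 0) z = i1 H (b (p2 H z)) := by
    change block a b z - block a 0 z = _
    apply ext_K2 <;> simp
  rw [e, norm_i1]
  exact (b.le_opNorm _).trans (mul_le_mul_of_nonneg_left (norm_p2_le z) (norm_nonneg b))

end

variable {A : Type u} [CStarAlgebra A]
variable {H : Type v} [NormedAddCommGroup H] [InnerProductSpace ℂ H] [CompleteSpace H]

lemma block_star (a : H →L[ℂ] H) : star (block a 0) = block (star a) 0 := by
  rw [ContinuousLinearMap.star_eq_adjoint, ContinuousLinearMap.star_eq_adjoint]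
  symm
  rw [ContinuousLinearMap.eq_adjoint_iff]
  intro z w
  rw [inner_K2, inner_K2]
  simp [ContinuousLinearMap.adjoint_inner_left]

/-- The homomorphism `x ↦ (a(x) δ(x); 0 a(x))` for a derivation `δ`. -/
noncomputable def triang (π : A →⋆ₐ[ℂ] (H →L[ℂ] H)) (δ : A →ₗ[ℂ] (H →L[ℂ] H))
    (hδ : ∀ x y, δ (x * y) = π x * δ y + δ x * π y) :
    A →ₐ[ℂ] ((K2 H) →L[ℂ] (K2 H)) :=
  AlgHom.ofLinearMap
    { toFun := fun x => block (π x) (δ x)
      map_add' := fun x y => by rw [map_add, map_add, block_add]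
      map_smul' := fun c x => by
        rw [map_smul, map_smul, block_smul]
        rfl }
    (by
      have h := hδ 1 1
      rw [map_one, mul_one, mul_one, one_mul] at h
      have h0 : δ 1 = 0 := left_eq_add.1 h
      change block (π 1) (δ 1) = 1
      rw [h0, map_one, block_one])
    (fun x y => by
      change block (π (x * y)) (δ (x * y)) = block (π x) (δ x) * block (π y) (δ y)
      rw [block_mul, map_mul, hδ])

/-- The *-homomorphism `x ↦ (π(x) 0; 0 π(x))`. -/
noncomputable def diag (π : A →⋆ₐ[ℂ] (H →L[ℂ] H)) : A →⋆ₐ[ℂ] ((K2 H) →L[ℂ] (K2 H)) :=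
  { triang π 0 (fun x y => by simp) with
    map_star' := fun x => by
      change block (π (star x)) 0 = star (block (π x) 0)
      rw [block_star, map_star] }

lemma triang_apply (π : A →⋆ₐ[ℂ] (H →L[ℂ] H)) (δ : A →ₗ[ℂ] (H →L[ℂ] H))
    (hδ : ∀ x y, δ (x * y) = π x * δ y + δ x * π y) (x : A) :
    triang π δ hδ x = block (π x) (δ x) := rfl

lemma diag_apply (π : A →⋆ₐ[ℂ] (H →L[ℂ] H)) (x : A) : diag π x = block (π x) 0 := rfl

/-- If the triangular homomorphism is similar to a *-homomorphism, the derivation is inner. -/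
theorem inner_of_similar (π : A →⋆ₐ[ℂ] (H →L[ℂ] H)) (δ : A →ₗ[ℂ] (H →L[ℂ] H))
    (hδ : ∀ x y, δ (x * y) = π x * δ y + δ x * π y) (h : IsSimilarToStar (triang π δ hδ)) :
    ∃ T : H →L[ℂ] H, ∀ x, δ x = π x * T - T * π x := by
  obtain ⟨S, hS⟩ := h
  set a := triang π δ hδ with ha
  set ρ : A → ((K2 H) →L[ℂ] (K2 H)) := fun x => S.val * a x * S.inv with hρ
  have hval : ∀ z, S.inv (S.val z) = z := fun z => by
    have := S.inv_val
    exact congrArg (fun f : (K2 H) →L[ℂ] (K2 H) => f z) this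
  have hinv : ∀ z, S.val (S.inv z) = z := fun z => by
    have := S.val_inv
    exact congrArg (fun f : (K2 H) →L[ℂ] (K2 H) => f z) this
  have hρa : ∀ x z, ρ x z = S.val (a x (S.inv z)) := fun x z => rfl
  -- the invariant subspace
  set N : Submodule ℂ (K2 H) := LinearMap.ker ((p2 H ∘L S.inv : (K2 H) →L[ℂ] H) : (K2 H) →ₗ[ℂ] H)
    with hN
  have hNmem : ∀ z, z ∈ N ↔ p2 H (S.inv z) = 0 := fun z => by
    rw [hN, LinearMap.mem_ker]
    rfl
  have hNclosed : IsClosed (N : Set (K2 H)) := (p2 H ∘L S.inv : (K2 H) →L[ℂ] H).isClosed_ker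
  have : CompleteSpace N := hNclosed.completeSpace_coe
  have hNinv : ∀ x, ∀ z ∈ N, ρ x z ∈ N := by
    intro x z hz
    rw [hNmem] at hz ⊢
    rw [hρa, hval, ha, triang_apply, p2_block, hz, map_zero]
  have hNorth : ∀ x, ∀ z ∈ Nᗮ, ρ x z ∈ Nᗮ := by
    intro x z hz
    rw [Submodule.mem_orthogonal]
    intro w hw
    have h1 : ρ x = ContinuousLinearMap.adjoint (ρ (star x)) := by
      have := hS (star x)
      rw [star_star, ContinuousLinearMap.star_eq_adjoint] at this
      exact this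
    rw [h1, ContinuousLinearMap.adjoint_inner_right]
    exact (Submodule.mem_orthogonal N z).1 hz _ (hNinv (star x) w hw)
  have hcomm : ∀ x z, N.starProjection (ρ x z) = ρ x (N.starProjection z) := by
    intro x z
    apply Submodule.eq_starProjection_of_mem_orthogonal
    · exact hNinv x _ (Submodule.starProjection_apply_mem N z)
    · rw [← map_sub]
      exact hNorth x _ (Submodule.sub_starProjection_mem_orthogonal z)
  set P : (K2 H) →L[ℂ] (K2 H) := S.inv * N.starProjection * S.val with hP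
  have hPa : ∀ z, P z = S.inv (N.starProjection (S.val z)) := fun z => rfl
  have hPcomm : ∀ x z, P (a x z) = a x (P z) := by
    intro x z
    rw [hPa, hPa]
    have h1 : S.val (a x z) = ρ x (S.val z) := by rw [hρa, hval]
    rw [h1, hcomm, hρa, hval]
  have hP1 : ∀ y, P (i1 H y) = i1 H y := by
    intro y
    have h1 : S.val (i1 H y) ∈ N := by rw [hNmem, hval, p2_i1]
    rw [hPa, Submodule.starProjection_eq_self_iff.2 h1, hval]
  have hP2 : ∀ z, p2 H (P z) = 0 := by
    intro z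
    rw [hPa]
    exact (hNmem _).1 (Submodule.starProjection_apply_mem N _)
  refine ⟨p1 H ∘L P ∘L i2 H, fun x => ?_⟩
  ext b
  have h1 := congrArg (p1 H) (hPcomm x (i2 H b))
  have h2 : a x (i2 H b) = i1 H (δ x b) + i2 H (π x b) := by
    rw [ha, triang_apply]
    apply ext_K2 <;> simp
  rw [h2, map_add, map_add, hP1, p1_i1, ha, triang_apply, p1_block, hP2, map_zero, add_zero] at h1
  exact eq_sub_of_add_eq h1

/-- The similarity property for homomorphisms close to *-homomorphisms implies that all derivations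
are inner. -/
theorem derivationsInner_of_close {ε : ℝ} (hε : 0 < ε) (h : CloseSimilarity.{u, v} A ε) :
    DerivationsInner.{u, v} A := by
  intro H π δ hd
  obtain ⟨c, hc⟩ := hd.bounded
  have hδ := hd.leibniz
  -- rescale
  set t : ℝ := ε / (|c| + 1) with ht
  have hpos : 0 < |c| + 1 := by positivity
  have htpos : 0 < t := div_pos hε hpos
  set δ' : A →ₗ[ℂ] (H.carrier →L[ℂ] H.carrier) := (t : ℂ) • δ with hδ'
  have hδ'2 : ∀ x y, δ' (x * y) = π x * δ' y + δ' x * π y := by
    intro x y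
    simp only [hδ', LinearMap.smul_apply, hδ x y, smul_add, mul_smul_comm, smul_mul_assoc]
  have hclose : ∀ x, ‖triang π δ' hδ'2 x - diag π x‖ ≤ ε * ‖x‖ := by
    intro x
    rw [triang_apply, diag_apply]
    refine (norm_block_sub_le _ _).trans ?_
    rw [hδ', LinearMap.smul_apply, norm_smul, Complex.norm_real, Real.norm_eq_abs,
      abs_of_pos htpos]
    have h1 : ‖δ x‖ ≤ (|c| + 1) * ‖x‖ := by
      refine (hc x).trans (mul_le_mul_of_nonneg_right ?_ (norm_nonneg x))
      linarith [le_abs_self c]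
    calc t * ‖δ x‖ ≤ t * ((|c| + 1) * ‖x‖) := mul_le_mul_of_nonneg_left h1 htpos.le
      _ = ε * ‖x‖ := by rw [ht]; field_simp
  obtain ⟨T, hT⟩ := inner_of_similar π δ' hδ'2
    (h (⟨K2 H.carrier⟩ : Hilb) (triang π δ' hδ'2) (diag π) hclose)
  refine ⟨((t : ℂ)⁻¹) • T, fun x => ?_⟩
  have htc : (t : ℂ) ≠ 0 := by exact_mod_cast htpos.ne'
  have h1 : δ x = (t : ℂ)⁻¹ • δ' x := by
    rw [hδ', LinearMap.smul_apply, smul_smul, inv_mul_cancel₀ htc, one_smul]
  rw [h1, hT x, smul_sub, mul_smul_comm, smul_mul_assoc]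

end Pool.Agent.TH116.KS
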